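import Pool.Agent.MNW.StmtsT

set_option autoImplicit false

/-! Row EDG of squad MNW: the edge inequality. -/

namespace Pool.Agent.MNW.H76

open Pool.Agent.MNT Pool.Agent.MNW

theorem edg : EdgStmt := by
  intro g m A u t k a b q s l hk hl hs hq hqb hy
  have hsl : 0 < s + l := by linarith
  have hne : s + l ≠ 0 := ne_of_gt hsl
  obtain ⟨σ, hσ⟩ : ∃ σ : ℝ, σ = s / (s + l) := ⟨_, rfl⟩
  have hσ0 : 0 ≤ σ := by
    rw [hσ]
    positivity
  have hσ1 : σ ≤ 1 := by
    rw [hσ, div_le_one hsl]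
    linarith
  have h1 := hy (σ * q) (mul_nonneg hσ0 hq) (by nlinarith)
  have h2 : 0 ≤ k * σ * (1 - σ) ^ 2 * q ^ 2 := by positivity
  have h3 : 0 ≤ l * (ed g m A u t k a b (σ * q) - 1 / 30 + k * σ * (1 - σ) ^ 2 * q ^ 2) :=
    mul_nonneg hl.le (by linarith)
  have h4 : (s * qf u t k a (b - q) + l * w1 g m A a b - A * (s * l / (s + l)) * q) -
      (1 / 30 * l + (s + l) * qf u t k a (b - (s / (s + l)) ^ 2 * q)) =
      l * (ed g m A u t k a b (σ * q) - 1 / 30 + k * σ * (1 - σ) ^ 2 * q ^ 2) := by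
    rw [hσ]
    unfold ed qf
    field_simp
    ring
  linarith

end Pool.Agent.MNW.H76
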